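import Pool.Agent.H31.SX.TargetsR

/-!
# (RE) stationary phase
-/

set_option autoImplicit false

open Finset

namespace Pool.Agent.H95.SWX

open Pool.Agent.H31.SX
open Pool.Agent.H29.TC (AC MC)

namespace RE

variable {R : Type} [CommRing R]

private theorem rinv {x y : R} (h : x * y = 1) : Ring.inverse x = y := by
  have hx : IsUnit x := IsUnit.of_mul_eq_one y h
  calc Ring.inverse x = Ring.inverse x * (x * y) := by rw [h, mul_one]
    _ = (Ring.inverse x * x) * y := by ring
    _ = y := by rw [Ring.inverse_mul_cancel x hx, one_mul]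

private theorem hp_eq {i a x y : R} (h : x * y = 1) :
    hp i a x = 2 * y + 2 * i * a ^ 2 * y ^ 3 := by
  unfold hp
  rw [rinv h]

private theorem pow_zero' {I : Ideal R} {N : ℕ} (hI : I ^ N = ⊥) {t : R} (ht : t ∈ I) {M : ℕ}
    (hM : N ≤ M) : t ^ M = 0 := by
  have h1 : t ^ N ∈ I ^ N := Ideal.pow_mem_pow ht N
  rw [hI] at h1
  have h2 : t ^ N = 0 := h1
  rw [← Nat.add_sub_of_le hM, pow_add, h2, zero_mul]

private theorem unit_add {I : Ideal R} {N : ℕ} (hI : I ^ N = ⊥) {u t : R} (hu : IsUnit u)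
    (ht : t ∈ I) : IsUnit (u + t) := by
  obtain ⟨v, hv⟩ := hu.exists_right_inv
  have h1 : IsNilpotent (v * t) := ⟨N, pow_zero' hI (I.mul_mem_left _ ht) le_rfl⟩
  have h2 : u + t = u * (1 + v * t) := by
    linear_combination (-t) * hv
  rw [h2]
  exact hu.mul h1.isUnit_one_add

open scoped Classical in
private theorem shift [Fintype R] {I : Ideal R} {s : R} (hs : s ∈ I) (f : R → ℂ) :
    (∑ τ : R, if τ ∈ I then f τ else 0) = ∑ τ : R, if τ ∈ I then f (s + τ) else 0 := by
  rw [← Equiv.sum_comp (Equiv.addLeft s)]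
  refine Finset.sum_congr rfl fun τ _ => ?_
  have h1 : (Equiv.addLeft s) τ = s + τ := rfl
  rw [h1]
  have h2 : s + τ ∈ I ↔ τ ∈ I := by
    constructor
    · intro h
      have h3 := I.sub_mem h hs
      rwa [add_sub_cancel_left] at h3
    · exact fun h => I.add_mem hs h
  simp only [h2]

/-- the geometric polynomial -/
private noncomputable def G (V : R) (M : ℕ) : Polynomial R :=
  Polynomial.C V * ∑ k ∈ range M, (Polynomial.C (-V) * Polynomial.X) ^ k

private theorem G_coeff (V : R) (M n : ℕ) (hn : n < M) : (G V M).coeff n = V * (-V) ^ n := by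
  unfold G
  rw [Polynomial.coeff_C_mul, Polynomial.finsetSum_coeff]
  have h1 : ∀ k ∈ range M, ((Polynomial.C (-V) * Polynomial.X : Polynomial R) ^ k).coeff n =
      if n = k then (-V) ^ k else 0 := by
    intro k _
    rw [mul_pow, ← Polynomial.C_pow, Polynomial.coeff_C_mul, Polynomial.coeff_X_pow]
    split_ifs
    · rw [mul_one]
    · rw [mul_zero]
  rw [Finset.sum_congr rfl h1, Finset.sum_ite_eq, if_pos (Finset.mem_range.2 hn)]

private theorem G_eval {I : Ideal R} {N : ℕ} (hI : I ^ N = ⊥) {U V t : R} (hUV : U * V = 1)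
    (ht : t ∈ I) {M : ℕ} (hM : N ≤ M) : (U + t) * (G V M).eval t = 1 := by
  have h1 : (G V M).eval t = V * ∑ k ∈ range M, (-V * t) ^ k := by
    unfold G
    rw [Polynomial.eval_mul, Polynomial.eval_C, Polynomial.eval_finsetSum]
    congr 1
    refine Finset.sum_congr rfl fun k _ => ?_
    rw [Polynomial.eval_pow, Polynomial.eval_mul, Polynomial.eval_C, Polynomial.eval_X]
  have h2 := geom_sum_mul_neg (-V * t) M
  have h3 : (-V * t) ^ M = 0 := pow_zero' hI (I.mul_mem_left _ ht) hM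
  rw [h3] at h2
  rw [h1]
  linear_combination h2 + (∑ k ∈ range M, (-V * t) ^ k) * hUV

private theorem eval_trunc {I : Ideal R} {N : ℕ} (hI : I ^ N = ⊥) (P : Polynomial R) {t : R}
    (ht : t ∈ I) : P.eval t = P.coeff 0 + P.coeff 1 * t +
      t ^ 2 * ∑ k ∈ range (N + 2), P.coeff (k + 2) * t ^ k := by
  have h1 : P.eval t = ∑ k ∈ range (N + 4), P.coeff k * t ^ k := by
    rw [Polynomial.eval_eq_sum_range' (n := max (P.natDegree + 1) (N + 4))
      (lt_of_lt_of_le (Nat.lt_succ_self _) (le_max_left _ _))]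
    symm
    refine Finset.sum_subset (Finset.range_mono (le_max_right _ _)) fun k _ hk => ?_
    rw [Finset.mem_range, not_lt] at hk
    rw [pow_zero' hI ht (by omega), mul_zero]
  rw [h1, Finset.sum_range_succ', Finset.sum_range_succ', Finset.mul_sum]
  have h2 : ∀ k : ℕ, P.coeff (k + 1 + 1) * t ^ (k + 1 + 1) =
      t ^ 2 * (P.coeff (k + 2) * t ^ k) := fun k => by ring
  simp only [h2]
  ring

end RE

open RE in
/-- (RE) stationary phase. -/
theorem pf_RE (hRA : X_RA) (hRB : X_RB) (hRD : X_RD) : X_RE := by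
  intro R _ _ θ I N hθ hI h2u i a X₀ Y₀ hi ha ha4 hXY
  classical
  obtain ⟨h, hh⟩ := h2u.exists_right_inv
  have hac := hθ.ac
  have hadd := hac.add
  refine ⟨?_, ?_, ?_⟩
  · intro q hq
    obtain ⟨hRD1, hRD2, -⟩ := hRD R θ I N hac hI h2u
    have hYu : IsUnit Y₀ := IsUnit.of_mul_eq_one X₀ (by rw [mul_comm, hXY])
    have hqu : IsUnit q := by
      have h1 := unit_add hI hYu hq
      rwa [add_sub_cancel] at h1
    obtain ⟨p, hp1⟩ := hqu.exists_right_inv
    obtain ⟨V, hV⟩ : ∃ V : R, V = q - h * a ^ 2 * q ^ 3 := ⟨_, rfl⟩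
    obtain ⟨U, hU⟩ : ∃ U : R, U = p + h * a ^ 2 * q := ⟨_, rfl⟩
    have hUV : U * V = 1 := by
      rw [hU, hV]
      linear_combination (1 - h * a ^ 2 * q ^ 2) * hp1 - h ^ 2 * q ^ 4 * ha4
    have hUX : U - X₀ ∈ I := by
      have h1 : U - X₀ = (-(p * X₀)) * (q - Y₀) + (h * a * q) * a := by
        rw [hU]
        linear_combination (-p) * hXY + X₀ * hp1
      rw [h1]
      exact I.add_mem (I.mul_mem_left _ hq) (I.mul_mem_left _ ha)
    obtain ⟨P, hP⟩ : ∃ P : Polynomial R, P = Polynomial.C 2 * G V (N + 4) +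
      Polynomial.C (2 * i * a ^ 2) * G V (N + 4) ^ 3 := ⟨_, rfl⟩
    have hG0 : (G V (N + 4)).coeff 0 = V := by
      rw [G_coeff V (N + 4) 0 (by omega)]
      ring
    have hG1 : (G V (N + 4)).coeff 1 = -V ^ 2 := by
      rw [G_coeff V (N + 4) 1 (by omega)]
      ring
    have hG2 : (G V (N + 4)).coeff 2 = V ^ 3 := by
      rw [G_coeff V (N + 4) 2 (by omega)]
      ring
    have hcube : G V (N + 4) ^ 3 = G V (N + 4) * G V (N + 4) * G V (N + 4) := by ring
    have hP0 : P.coeff 0 = 2 * V + 2 * i * a ^ 2 * V ^ 3 := by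
      rw [hP, hcube, Polynomial.coeff_add, Polynomial.coeff_C_mul, Polynomial.coeff_C_mul,
        Polynomial.mul_coeff_zero, Polynomial.mul_coeff_zero, hG0]
      ring
    have hP1 : P.coeff 1 = -(2 * q ^ 2) := by
      rw [hP, hcube, Polynomial.coeff_add, Polynomial.coeff_C_mul, Polynomial.coeff_C_mul,
        Polynomial.mul_coeff_one, Polynomial.mul_coeff_one,
        Polynomial.mul_coeff_zero, hG0, hG1, hV]
      linear_combination (-2 * h ^ 2 * q ^ 6 - 6 * i * q ^ 4 * (-4 * h * q ^ 2 +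
        6 * h ^ 2 * a ^ 2 * q ^ 4 - 4 * h ^ 3 * a ^ 4 * q ^ 6 + h ^ 4 * a ^ 6 * q ^ 8)) * ha4 +
        2 * a ^ 2 * q ^ 4 * hh - 2 * a ^ 2 * q ^ 4 * hi
    have hP2 : P.coeff 2 = 2 * V ^ 3 + 2 * i * a ^ 2 * (G V (N + 4) ^ 3).coeff 2 := by
      rw [hP, Polynomial.coeff_add, Polynomial.coeff_C_mul, Polynomial.coeff_C_mul, hG2]
    have hev : ∀ t ∈ I, hp i a (U + t) = P.eval t := by
      intro t ht
      rw [hp_eq (G_eval hI hUV ht (by omega : N ≤ N + 4)), hP, Polynomial.eval_add,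
        Polynomial.eval_mul, Polynomial.eval_mul, Polynomial.eval_C, Polynomial.eval_C,
        Polynomial.eval_pow]
    have hVY : P.coeff 2 - 2 * Y₀ ^ 3 ∈ I := by
      have h1 : P.coeff 2 - 2 * Y₀ ^ 3 =
          (2 * (V ^ 2 + V * Y₀ + Y₀ ^ 2)) * ((q - Y₀) + (-(h * a * q ^ 3)) * a) +
            (2 * i * a * (G V (N + 4) ^ 3).coeff 2) * a := by
        rw [hP2]
        have h3 : V = q - h * a ^ 2 * q ^ 3 := hV
        linear_combination (-(2 * (V ^ 2 + V * Y₀ + Y₀ ^ 2))) * (h3 * (-1 : R))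
      rw [h1]
      exact I.add_mem (I.mul_mem_left _ (I.add_mem hq (I.mul_mem_left _ ha)))
        (I.mul_mem_left _ ha)
    have hκu : IsUnit (P.coeff (0 + 2)) := by
      have h1 : P.coeff (0 + 2) = 2 * Y₀ ^ 3 + (P.coeff 2 - 2 * Y₀ ^ 3) := by ring
      rw [h1]
      exact unit_add hI (h2u.mul (hYu.pow 3)) hVY
    have hsum := hRD1 (fun k => P.coeff (k + 2)) hκu
      (fun t => P.eval t - P.coeff 0 - P.coeff 1 * t) (fun t ht => by
        rw [eval_trunc hI P ht]
        ring)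
    have hGa : Ga θ I (P.coeff (0 + 2)) = Ga θ I (2 * Y₀ ^ 3) := hRD2 _ _ hκu hVY
    unfold WW
    rw [shift hUX]
    have hterm : ∀ t : R, (if t ∈ I then θ (hp i a (X₀ + (U - X₀ + t)) -
        -(2 * q ^ 2) * (U - X₀ + t)) else 0) =
        θ (4 * q + 2 * i * a ^ 2 * q ^ 3 - 2 * q ^ 2 * X₀) *
          (if t ∈ I then θ (P.eval t - P.coeff 0 - P.coeff 1 * t) else 0) := by
      intro t
      split_ifs with ht
      · rw [← hadd]
        congr 1
        have h1 : X₀ + (U - X₀ + t) = U + t := by ring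
        rw [h1, hev t ht, hP0, hP1, hV, hU]
        linear_combination (2 * q) * hp1 + (2 * i * q ^ 3 * (-3 * h * q ^ 2 +
          3 * h ^ 2 * a ^ 2 * q ^ 4 - h ^ 3 * a ^ 4 * q ^ 6)) * ha4
      · rw [mul_zero]
    rw [Finset.sum_congr rfl fun t _ => hterm t, ← Finset.mul_sum]
    congr 1
    rw [← hGa]
    exact hsum
  · intro α ν hν
    unfold WW
    refine Finset.sum_congr rfl fun τ _ => ?_
    split_ifs with hτ
    · have h1 : (α + ν) * τ = α * τ := by
        rw [add_mul, hν τ hτ, add_zero]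
      rw [h1]
    · rfl
  · intro α hα
    obtain ⟨x, hx⟩ : ∃ x : R, x = -(2 * Y₀ ^ 2) - α := ⟨_, rfl⟩
    have hXu : IsUnit X₀ := IsUnit.of_mul_eq_one Y₀ hXY
    -- invariance
    have hkey : ∀ s ∈ I, (∀ t ∈ I, s * t = 0) → θ (x * s) = 1 := by
      intro s hs hsI
      have h1 : WW θ I i a X₀ α = θ (x * s) * WW θ I i a X₀ α := by
        conv_lhs => unfold WW
        rw [shift hs]
        unfold WW
        rw [Finset.mul_sum]
        refine Finset.sum_congr rfl fun τ _ => ?_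
        split_ifs with hτ
        · rw [← hadd]
          congr 1
          obtain ⟨Z, hZ⟩ := (unit_add hI hXu hτ).exists_right_inv
          have hss : s * s = 0 := hsI s hs
          have hst : s * τ = 0 := hsI τ hτ
          have hsa : s * a = 0 := hsI a ha
          have hZY : s * Z = s * Y₀ := by
            have e1 : s * (X₀ + τ) = s * X₀ := by rw [mul_add, hst, add_zero]
            calc s * Z = s * Z * (X₀ * Y₀) := by rw [hXY, mul_one]
              _ = s * X₀ * Z * Y₀ := by ring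
              _ = s * (X₀ + τ) * Z * Y₀ := by rw [e1]
              _ = s * ((X₀ + τ) * Z) * Y₀ := by ring
              _ = s * Y₀ := by rw [hZ, mul_one]
          have hZ' : (X₀ + (s + τ)) * (Z - Y₀ ^ 2 * s) = 1 := by
            linear_combination hZ + hZY - s * Y₀ * hXY - Y₀ ^ 2 * hst - Y₀ ^ 2 * hss
          rw [hp_eq hZ', hp_eq hZ, hx]
          linear_combination (2 * i * a * (-3 * Z ^ 2 * Y₀ ^ 2 + 3 * Z * Y₀ ^ 4 * s -
            Y₀ ^ 6 * s ^ 2)) * hsa
        · rw [mul_zero]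
      exact mul_right_cancel₀ hα ((h1.symm.trans (one_mul _).symm))
    have hkill : ∀ s ∈ I, (∀ t ∈ I, s * t = 0) → x * s = 0 := by
      intro s hs hsI
      refine hθ.nd _ fun r => ?_
      have h1 := hkey (r * s) (I.mul_mem_left _ hs) (fun t ht => by
        rw [mul_assoc, hsI t ht, mul_zero])
      rw [← h1]
      congr 1
      ring
    -- the annihilator
    obtain ⟨A, hA⟩ : ∃ A : Ideal R, ∀ y, y ∈ A ↔ ∀ t ∈ I, y * t = 0 := by
      refine ⟨{ carrier := {y | ∀ t ∈ I, y * t = 0}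
                add_mem' := ?_
                zero_mem' := ?_
                smul_mem' := ?_ }, fun y => Iff.rfl⟩
      · intro y z hy hz t ht
        rw [add_mul, hy t ht, hz t ht, add_zero]
      · intro t _
        rw [zero_mul]
      · intro c y hy t ht
        rw [smul_eq_mul, mul_assoc, hy t ht, mul_zero]
    have hxC : x ∈ I ⊔ A := by
      refine (hRA R θ hθ (I ⊔ A)).2.1 x fun y hy => ?_
      have hyI : ∀ t ∈ I, y * t = 0 := fun t ht => hy t (Ideal.mem_sup_left ht)
      have hyI' : y ∈ I := by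
        refine (hRA R θ hθ I).2.1 y fun z hz => ?_
        exact hy z (Ideal.mem_sup_right ((hA z).2 hz))
      exact hkill y hyI' hyI
    obtain ⟨ι, hι, ν, hν, hιν⟩ := Submodule.mem_sup.1 hxC
    have hν' := (hA ν).1 hν
    obtain ⟨c, hc0, -, hc⟩ := hRB R I N hI (Y₀ ^ 2) Y₀ (h ^ 2 * X₀ ^ 2) rfl (by
      linear_combination (2 * h + 1) * (X₀ ^ 2 * Y₀ ^ 2) * hh + (X₀ * Y₀ + 1) * hXY)
    obtain ⟨q, hq⟩ : ∃ q : R, q = ∑ k ∈ range (N + 6), c k * (h * ι) ^ k := ⟨_, rfl⟩
    have hq2 := hc (h * ι) (I.mul_mem_left _ hι)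
    rw [← hq] at hq2
    refine ⟨q, -ν, ?_, fun t ht => by rw [neg_mul, hν' t ht, neg_zero], ?_⟩
    · rw [hq, Finset.sum_range_succ', pow_zero, mul_one, hc0, add_sub_cancel_right]
      refine I.sum_mem fun k _ => ?_
      rw [pow_succ, ← mul_assoc]
      exact I.mul_mem_left _ (I.mul_mem_left _ hι)
    · rw [hq2]
      linear_combination hx + hιν + ι * hh

end Pool.Agent.H95.SWX
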