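import Pool.Agent.H31.SX.TargetsR
import Mathlib.GroupTheory.FiniteAbelian.Duality
import Mathlib.RingTheory.RootsOfUnity.AlgebraicallyClosed

/-!
# (RG) the additive character of a primitive multiplicative character
-/

set_option autoImplicit false

namespace Pool.Agent.H95.SWX

open Pool.Agent.H31.SX
open Pool.Agent.H29.TC (AC MC)

namespace RG

/-- characters of ideals extend -/
theorem ext_char {R : Type} [CommRing R] [Fintype R] (I : Ideal R) (φ : R → ℂ)
    (hadd : ∀ x ∈ I, ∀ y ∈ I, φ (x + y) = φ x * φ y) (hn : ∀ x ∈ I, ‖φ x‖ = 1) :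
    ∃ θ : R → ℂ, AC θ ∧ ∀ x ∈ I, θ x = φ x := by
  have hne : ∀ x ∈ I, φ x ≠ 0 := fun x hx h => by
    have := hn x hx
    rw [h, norm_zero] at this
    exact zero_ne_one this
  let H : Subgroup (Multiplicative R) := AddSubgroup.toSubgroup I.toAddSubgroup
  let ψ : H →* ℂˣ :=
    { toFun := fun x => Units.mk0 (φ (Multiplicative.toAdd x.1)) (hne _ x.2)
      map_one' := by
        ext
        have h1 := hadd 0 (zero_mem I) 0 (zero_mem I)
        rw [add_zero] at h1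
        have h2 : φ 0 = 1 := by
          have h3 := mul_left_cancel₀ (hne 0 (zero_mem I)) ((mul_one _).trans h1)
          exact h3.symm
        exact h2
      map_mul' := by
        intro x y
        ext
        exact hadd _ x.2 _ y.2 }
  have hfin : Finite (Multiplicative R) := inferInstanceAs (Finite R)
  obtain ⟨Ψ, hΨ⟩ := MonoidHom.domRestrict_surjective ℂ H ψ
  refine ⟨fun x => (Ψ (Multiplicative.ofAdd x) : ℂˣ), ⟨fun x y => ?_, fun x => ?_⟩,
    fun x hx => ?_⟩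
  · rw [ofAdd_add, map_mul]
    rfl
  · have h1 : ((Ψ (Multiplicative.ofAdd x) : ℂˣ) : ℂ) ^ Nat.card (Multiplicative R) = 1 := by
      rw [← Units.val_pow_eq_pow_val, ← map_pow, pow_card_eq_one', map_one, Units.val_one]
    exact Complex.norm_eq_one_of_pow_eq_one h1 (Nat.card_pos).ne'
  · have h1 := DFunLike.congr_fun hΨ ⟨Multiplicative.ofAdd x, hx⟩
    have h2 := congrArg (fun u : ℂˣ => (u : ℂ)) h1
    exact h2

variable {R : Type} [CommRing R]

private theorem p4 {J : Ideal R} (hJ : J ^ 4 = ⊥) {a b c d : R} (ha : a ∈ J) (hb : b ∈ J)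
    (hc : c ∈ J) (hd : d ∈ J) : a * b * c * d = 0 := by
  have h1 : a * b * c * d ∈ J ^ 4 := by
    have h2 : J ^ 4 = J * J * J * J := by ring
    rw [h2]
    exact Ideal.mul_mem_mul (Ideal.mul_mem_mul (Ideal.mul_mem_mul ha hb) hc) hd
  rw [hJ] at h1
  exact h1

/-- the exponential -/
private def ex (h i j : R) : R := j + h * j ^ 2 + h * i * j ^ 3

private theorem lg_mul {J : Ideal R} (hJ : J ^ 4 = ⊥) {h i : R} (hh : 2 * h = 1) (hi : 3 * i = 1)
    {j j' : R} (hj : j ∈ J) (hj' : j' ∈ J) :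
    lg h i (j + j' + j * j') = lg h i j + lg h i j' := by
  have z1 := p4 hJ hj hj hj' hj'
  have z2 := p4 hJ (J.add_mem hj hj') (J.add_mem hj hj') hj hj'
  have z3 := p4 hJ (J.add_mem hj hj') hj hj' hj
  unfold lg
  linear_combination (-(j * j') - (j ^ 2 * j' + j * j' ^ 2)) * hh +
    (j ^ 2 * j' + j * j' ^ 2) * hi - h * z1 + 3 * i * z2 + 3 * i * j' * z3 + i * j * j' * z1

private theorem ex_lg {J : Ideal R} (hJ : J ^ 4 = ⊥) {h i : R} (hh : 2 * h = 1) (hi : 3 * i = 1)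
    {j : R} (hj : j ∈ J) : ex h i (lg h i j) = j := by
  have z := p4 hJ hj hj hj hj
  have e1 : h * i - h + i = 0 := by linear_combination h * hi - i * hh
  have hz : ∃ c : R, ex h i (lg h i j) = j + j ^ 3 * (h * i - h + i) +
      (1 - 2 * h) * (h * j ^ 3) + c * (j * j * j * j) := by
    refine ⟨h * (h ^ 2 + 2 * i - 2 * h * i * j + i ^ 2 * j ^ 2) +
      h * i * (-3 * h + 3 * (h ^ 2 + i) * j - (h ^ 3 + 6 * h * i) * j ^ 2 +
        3 * (h ^ 2 * i + i ^ 2) * j ^ 3 - 3 * h * i ^ 2 * j ^ 4 + i ^ 3 * j ^ 5), ?_⟩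
    unfold ex lg
    ring
  obtain ⟨c, hc⟩ := hz
  rw [hc, z, e1]
  linear_combination (-(h * j ^ 3)) * hh

private theorem lg_ex {J : Ideal R} (hJ : J ^ 4 = ⊥) {h i : R} (hh : 2 * h = 1) (hi : 3 * i = 1)
    {j : R} (hj : j ∈ J) : lg h i (ex h i j) = j := by
  have z := p4 hJ hj hj hj hj
  have e1 : h * i - h + i = 0 := by linear_combination h * hi - i * hh
  have hz : ∃ c : R, lg h i (ex h i j) = j + j ^ 3 * (h * i - h + i) +
      (1 - 2 * h) * (h * j ^ 3) + c * (j * j * j * j) := by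
    refine ⟨-h * (h ^ 2 + 2 * h * i + 2 * h ^ 2 * i * j + h ^ 2 * i ^ 2 * j ^ 2) +
      i * (3 * h + 3 * (h ^ 2 + h * i) * j + (h ^ 3 + 6 * h ^ 2 * i) * j ^ 2 +
        3 * (h ^ 3 * i + h ^ 2 * i ^ 2) * j ^ 3 + 3 * h ^ 3 * i ^ 2 * j ^ 4 +
          h ^ 3 * i ^ 3 * j ^ 5), ?_⟩
    unfold ex lg
    ring
  obtain ⟨c, hc⟩ := hz
  rw [hc, z, e1]
  linear_combination (-(h * j ^ 3)) * hh

private theorem ex_mem {J : Ideal R} (h i : R) {j : R} (hj : j ∈ J) : ex h i j ∈ J := by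
  have h1 : ex h i j = (1 + h * j + h * i * j ^ 2) * j := by
    unfold ex
    ring
  rw [h1]
  exact J.mul_mem_left _ hj

private theorem lg_mem {J : Ideal R} (h i : R) {j : R} (hj : j ∈ J) : lg h i j ∈ J := by
  have h1 : lg h i j = (1 - h * j + i * j ^ 2) * j := by
    unfold lg
    ring
  rw [h1]
  exact J.mul_mem_left _ hj

private theorem unit_add {J : Ideal R} (hJ : J ^ 4 = ⊥) {j : R} (hj : j ∈ J) :
    IsUnit (1 + j) := by
  have h1 : IsNilpotent j := by
    refine ⟨4, ?_⟩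
    have h2 := p4 hJ hj hj hj hj
    linear_combination h2
  exact h1.isUnit_one_add

end RG

open RG in
/-- (RG) the additive character of a primitive multiplicative character. -/
theorem pf_RG : X_RG := by
  intro R _ _ η J h i hη hprim hJ hh hi
  obtain ⟨θ, hθ, hθJ⟩ := ext_char J (fun x => η (1 + ex h i x))
    (fun x hx y hy => by
      have hX := ex_mem h i hx
      have hY := ex_mem h i hy
      have h1 := lg_mul hJ hh hi hX hY
      rw [lg_ex hJ hh hi hx, lg_ex hJ hh hi hy] at h1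
      have h2 : ex h i (x + y) = ex h i x + ex h i y + ex h i x * ex h i y := by
        rw [← h1]
        exact ex_lg hJ hh hi (J.add_mem (J.add_mem hX hY) (J.mul_mem_left _ hY))
      rw [h2, ← hη.mul]
      congr 1
      ring)
    (fun x hx => hη.unit _ (unit_add hJ (ex_mem h i hx)))
  have hlog : ∀ j ∈ J, η (1 + j) = θ (lg h i j) := fun j hj => by
    rw [hθJ _ (lg_mem h i hj), ex_lg hJ hh hi hj]
  refine ⟨θ, hθ, hlog, fun a ha ha0 => ?_⟩
  obtain ⟨y, hy0, hyJ⟩ : ∃ y : R, a * y ≠ 0 ∧ ∀ j ∈ J, a * y * j = 0 := by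
    by_cases c1 : ∀ j ∈ J, a * j = 0
    · exact ⟨1, by rwa [mul_one], fun j hj => by rw [mul_one]; exact c1 j hj⟩
    push Not at c1
    obtain ⟨j₁, hj₁, h1⟩ := c1
    by_cases c2 : ∀ j ∈ J, a * j₁ * j = 0
    · exact ⟨j₁, h1, c2⟩
    push Not at c2
    obtain ⟨j₂, hj₂, h2⟩ := c2
    by_cases c3 : ∀ j ∈ J, a * j₁ * j₂ * j = 0
    · exact ⟨j₁ * j₂, by rwa [← mul_assoc], fun j hj => by rw [← mul_assoc]; exact c3 j hj⟩
    push Not at c3
    obtain ⟨j₃, hj₃, h3⟩ := c3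
    exact absurd (p4 hJ ha hj₁ hj₂ hj₃) h3
  have hwJ : a * y ∈ J := J.mul_mem_right _ ha
  obtain ⟨r, -, hr⟩ := hprim (a * y) hy0
  refine ⟨r * y, ?_⟩
  have h1 : r * (a * y) ∈ J := J.mul_mem_left _ hwJ
  have h2 : a * y * (a * y) = 0 := hyJ _ hwJ
  have h3 : lg h i (r * (a * y)) = r * y * a := by
    unfold lg
    linear_combination (-h * r ^ 2 + i * r ^ 3 * (a * y)) * h2
  rw [← h3, ← hlog _ h1]
  exact hr

end Pool.Agent.H95.SWX
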